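import Pool.Agent.Helper12.TS.StB

/-!
# Project TS, module DPT: case beta, the pattern D
-/

set_option autoImplicit false

namespace Pool.Agent.Helper34.TS

open Pool.Agent.Helper12.TS
open Pool.Agent.Helper51.AJ (IsMinor Planar Apex ExMinor Con Tch)
open Pool.Agent.Helper12.NK (rst Kc add)

/-- DPT: case beta, the pattern D -/
theorem hDPT : StPRC → StAVL → StPAT → StDPT := by
  intro hPRC hAVL hPAT V _ G S A B y hK hS hA hB hAB hcov h2 hN hap hy
  obtain ⟨hP1, hP2⟩ := hPRC V G S B hK hS hB h2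
  by_cases hex : ∃ v₀ ∈ B, Planar (add (rst G ((B \ {v₀}) ∪ S)) y S) ∧ ∃ c ∈ S, Pc G S B v₀ c
  · obtain ⟨v₀, hv₀, hpl, c, hc, hPc⟩ := hex
    obtain ⟨-, -, -, -, hle⟩ := hAVL V G S B v₀ hS hB hv₀
    refine ⟨str c S, hle c hc,
      hPAT V G S A B c v₀ y hK hS hA hB hAB hcov hv₀ hc hPc hy hpl (hap v₀), ?_⟩
    intro v hv _
    obtain ⟨h1, h2', h3, h4, h5⟩ := hAVL V G S B v hS hB hv
    rcases hP1 v hv with h | h | ⟨c', hc', h⟩
    · exact h4 _ _ _ (h5 c hc) (h1 h)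
    · exact h4 _ _ _ (h5 c hc) (h2' h)
    · have e : c' = c := hP2 v hv v₀ hv₀ c' hc' c hc h hPc
      subst e
      exact h3 c' hc h
  · refine ⟨cl S, le_rfl, hN, ?_⟩
    intro v hv hpl
    obtain ⟨h1, h2', -, -, -⟩ := hAVL V G S B v hS hB hv
    rcases hP1 v hv with h | h | ⟨c', hc', h⟩
    · exact h1 h
    · exact h2' h
    · exact (hex ⟨v, hv, hpl, c', hc', h⟩).elim

end Pool.Agent.Helper34.TS
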