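import Pool.Agent.Helper12.TS.St
import Pool.Agent.Helper41.AJ.M_CON

/-!
# Project TS, module QUO: facts on quotients
-/

set_option autoImplicit false

namespace Pool.Agent.Helper34.TS

open Pool.Agent.Helper12.TS
open Pool.Agent.Helper51.AJ (IsMinor Planar Apex ExMinor Con Tch)
open Pool.Agent.Helper12.NK (rst Kc add)

variable {V : Type}

/-- the image of a connected set is connected in the quotient -/
private lemma con_image (G : SimpleGraph V) (D : Set V) (ρ : V → V) {T : Set V} (hT : T ⊆ D)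
    (h : Con G T) : Con (quo G D ρ) (ρ '' T) := by
  have key : ∀ (a b : T), (G.induce T).Walk a b →
      ((quo G D ρ).induce (ρ '' T)).Reachable ⟨ρ a, Set.mem_image_of_mem ρ a.2⟩
        ⟨ρ b, Set.mem_image_of_mem ρ b.2⟩ := by
    intro a b p
    induction p with
    | nil => exact SimpleGraph.Reachable.refl _
    | @cons u v w hadj p ih =>
      by_cases huv : ρ u = ρ v
      · have e : (⟨ρ u, Set.mem_image_of_mem ρ u.2⟩ : ↥(ρ '' T)) =
            ⟨ρ v, Set.mem_image_of_mem ρ v.2⟩ := Subtype.ext huv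
        rw [e]
        exact ih
      · have e : ((quo G D ρ).induce (ρ '' T)).Adj ⟨ρ u, Set.mem_image_of_mem ρ u.2⟩
            ⟨ρ v, Set.mem_image_of_mem ρ v.2⟩ :=
          ⟨huv, u, hT u.2, v, hT v.2, rfl, rfl, hadj⟩
        exact e.reachable.trans ih
  have hne : Nonempty ↥(ρ '' T) := by
    obtain ⟨x⟩ := h.nonempty
    exact ⟨⟨ρ x, Set.mem_image_of_mem ρ x.2⟩⟩
  refine { preconnected := ?_, nonempty := hne }
  rintro ⟨a', a, ha, rfl⟩ ⟨b', b, hb, rfl⟩
  obtain ⟨p⟩ := h.preconnected ⟨a, ha⟩ ⟨b, hb⟩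
  exact key _ _ p

/-- the image of a connected part of `Zz A ρ` -/
private lemma image_Zz {G : SimpleGraph V} {A T : Set V} {ρ : V → V} (h : Rtr G A T ρ)
    {X Z : Set V} (hZ : Z ⊆ Zz A ρ \ {z | ρ z ∈ X}) : ρ '' Z ⊆ Rr A ρ \ X := by
  rintro _ ⟨z, hz, rfl⟩
  exact ⟨⟨(hZ hz).1.2, h.idp z⟩, (hZ hz).2⟩

/-- links between an outer vertex and an element of `T` -/
private lemma lk_out {G : SimpleGraph V} {A T : Set V} {ρ : V → V} (h : Rtr G A T ρ) {a t : V}
    (X : Set V) (ha : a ∉ A) (haT : a ∉ T) (ht : t ∈ T) (hd : Disjoint A T)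
    (hl : Tch G {a} {z | ρ z = t} ∨ ∃ Z ⊆ Zz A ρ \ {z | ρ z ∈ X}, Con G Z ∧ Tch G {a} Z ∧
      Tch G Z {z | ρ z = t}) : Lk (quo G Set.univ ρ) (Rr A ρ \ X) a t := by
  have htA : t ∉ A := fun h' => Set.disjoint_left.1 hd h' ht
  rcases hl with ⟨a', ha', z, hz, hadj⟩ | ⟨Z, hZ, hc, ⟨a', ha', z, hz, hadj⟩, z', hz', w, hw, hadj'⟩
  · rw [Set.mem_singleton_iff] at ha'
    subst ha'
    exact Or.inl ⟨fun e => haT (e ▸ ht), a', Set.mem_univ _, z, Set.mem_univ _, h.off _ ha, hz, hadj⟩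
  · rw [Set.mem_singleton_iff] at ha'
    subst ha'
    refine Or.inr ⟨ρ '' Z, image_Zz h hZ, con_image G _ ρ (Set.subset_univ _) hc, ?_, ?_⟩
    · exact ⟨a', rfl, ρ z, Set.mem_image_of_mem ρ hz, fun e => ha (e ▸ (hZ hz).1.2), a',
        Set.mem_univ _, z, Set.mem_univ _, h.off _ ha, rfl, hadj⟩
    · exact ⟨t, rfl, ρ z', Set.mem_image_of_mem ρ hz', fun e => htA (e ▸ (hZ hz').1.2), w,
        Set.mem_univ _, z', Set.mem_univ _, hw, rfl, hadj'.symm⟩

/-- touching of an element of `T` and the image of a part of `Zz A ρ` -/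
private lemma tch_image {G : SimpleGraph V} {A T : Set V} {ρ : V → V} {t : V} (ht : t ∈ T)
    (hd : Disjoint A T) {Z : Set V} (hZ : Z ⊆ Zz A ρ) (hl : Tch G {z | ρ z = t} Z) :
    Tch (quo G Set.univ ρ) {t} (ρ '' Z) := by
  have htA : t ∉ A := fun h' => Set.disjoint_left.1 hd h' ht
  obtain ⟨w, hw, z, hz, hadj⟩ := hl
  exact ⟨t, rfl, ρ z, Set.mem_image_of_mem ρ hz, fun e => htA (e ▸ (hZ hz).2), w,
    Set.mem_univ _, z, Set.mem_univ _, hw, rfl, hadj⟩

/-- QUO: facts on quotients -/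
theorem hQUO : StQUO := by
  intro V _ G D ρ
  refine ⟨fun T hT h => con_image G D ρ hT h, ?_, ?_, ?_, ?_, ?_, ?_, ?_, ?_⟩
  · rintro T hT T' hT' hd ⟨x, hx, y, hy, hadj⟩
    refine ⟨ρ x, Set.mem_image_of_mem ρ hx, ρ y, Set.mem_image_of_mem ρ hy, ?_, x, hT hx, y, hT' hy,
      rfl, rfl, hadj⟩
    exact fun e => Set.disjoint_left.1 hd (Set.mem_image_of_mem ρ hx)
      (e ▸ Set.mem_image_of_mem ρ hy)
  · intro X hX hid a b hab
    exact ⟨G.ne_of_adj hab.1, a, hX hab.2.1, b, hX hab.2.2, hid a hab.2.1, hid b hab.2.2, hab.1⟩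
  · intro X hX hid hc
    have e : ρ '' X = X := by
      ext a
      constructor
      · rintro ⟨x, hx, rfl⟩
        rw [hid x hx]
        exact hx
      · intro ha
        exact ⟨a, ha, hid a ha⟩
    have := con_image G D ρ hX hc
    rwa [e] at this
  · intro A T h hlt
    have hsub : Rr A ρ ⊆ A := fun x hx => hx.1
    obtain ⟨x, hx, hxr⟩ : ∃ x ∈ A, x ∉ Rr A ρ := by
      by_contra hcon
      push Not at hcon
      have : A = Rr A ρ := Set.Subset.antisymm hcon hsub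
      rw [← this] at hlt
      exact lt_irrefl _ hlt
    have hne : ρ x ≠ x := fun e => hxr ⟨hx, e⟩
    obtain ⟨x', hx', y, hy, hadj⟩ := (Pool.Agent.Helper41.AJ.hCON V G {z | ρ z = ρ x} (h.fib x)).1
      {x} (by rintro z rfl; exact rfl) ⟨x, rfl⟩ (fun e => by
        have h1 : ρ x ∈ ({x} : Set V) := by
          rw [e]
          exact h.idp x
        exact hne h1)
    rw [Set.mem_singleton_iff] at hx'
    subst hx'
    exact ⟨x', y, hadj, hy.1.symm⟩
  · intro A T a t h ha haT ht hd hl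
    have h1 := lk_out h ∅ ha haT ht hd (hl.imp_right fun ⟨Z, hZ, h'⟩ =>
      ⟨Z, fun z hz => ⟨hZ hz, fun h'' => h''⟩, h'⟩)
    rwa [Set.sdiff_empty] at h1
  · intro A T a t r h ha haT ht hd hl
    exact lk_out h {r} ha haT ht hd hl
  · rintro A T a b r h ha hb hab hd ⟨Z, hZ, hc, h1, h2⟩
    exact Or.inr ⟨ρ '' Z, image_Zz (X := {r}) h hZ, con_image G _ ρ (Set.subset_univ _) hc,
      tch_image ha hd (fun z hz => (hZ hz).1) h1, tch_image hb hd (fun z hz => (hZ hz).1) h2⟩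
  · rintro A T h hd ⟨Z, hZ, hc, h1⟩
    refine ⟨ρ '' Z, ?_, con_image G _ ρ (Set.subset_univ _) hc,
      fun t ht => tch_image ht hd hZ (h1 t ht)⟩
    rintro _ ⟨z, hz, rfl⟩
    exact ⟨(hZ hz).2, h.idp z⟩

end Pool.Agent.Helper34.TS
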